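import Mathlib

set_option autoImplicit false

open Cardinal Ordinal Set

universe u v w

namespace Pool.Agent.Results.MP_a2f7de_lc.FactoredQuotients

/-- A (proper) ideal on the type `X`. -/
structure IdealOn (X : Type u) where
  sets : Set (Set X)
  mono' : ∀ {s t : Set X}, s ⊆ t → t ∈ sets → s ∈ sets
  union' : ∀ {s t : Set X}, s ∈ sets → t ∈ sets → s ∪ t ∈ sets
  empty' : ∅ ∈ sets
  proper' : Set.univ ∉ sets

/-- The `J`-positive sets, the conditions of the quotient forcing. -/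
def Pos {X : Type u} (J : IdealOn X) : Type u := {s : Set X // s ∉ J.sets}

/-- Inclusion modulo `J`. -/
instance {X : Type u} (J : IdealOn X) : Preorder (Pos J) where
  le s t := s.1 \ t.1 ∈ J.sets
  le_refl s := by
    simpa using J.empty'
  le_trans s t r h₁ h₂ := by
    refine J.mono' (t := (s.1 \ t.1) ∪ (t.1 \ r.1)) ?_ (J.union' h₁ h₂)
    intro x hx
    by_cases h : x ∈ t.1
    · exact Or.inr ⟨h, hx.2⟩
    · exact Or.inl ⟨hx.1, h⟩

/-- Compatibility of two conditions. -/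
def Compat {P : Type u} [Preorder P] (p q : P) : Prop := ∃ r, r ≤ p ∧ r ≤ q

/-- Antichains. -/
def IsAnti {P : Type u} [Preorder P] (W : Set P) : Prop :=
  ∀ v ∈ W, ∀ w ∈ W, v ≠ w → ¬ Compat v w

/-- Maximal antichains. -/
def IsMaxAnti {P : Type u} [Preorder P] (W : Set P) : Prop :=
  IsAnti W ∧ ∀ p, ∃ w ∈ W, Compat p w

/-- `c`-presaturation of a poset. -/
def Presaturated (c : Cardinal.{u}) (P : Type u) [Preorder P] : Prop :=
  ∀ p : P, ∀ F : Set (Set P), #F < c → (∀ W ∈ F, IsMaxAnti W) →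
    ∃ q ≤ p, ∀ W ∈ F, #{w : P // w ∈ W ∧ Compat q w} < c

/-- The `c`-chain condition: every antichain has fewer than `c` elements. -/
def CC (c : Cardinal.{u}) (P : Type u) [Preorder P] : Prop :=
  ∀ W : Set P, IsAnti W → #W < c

/-- `c`-completeness of an ideal. -/
def Complete {X : Type u} (c : Cardinal.{u}) (J : IdealOn X) : Prop :=
  ∀ S : Set (Set X), S ⊆ J.sets → #S < c → ⋃₀ S ∈ J.sets

/-- `[ω₃]^{ω₂}`. -/
def Z : Type 1 := {x : Set Ordinal.{0} // x ⊆ Iio (ω_ 3) ∧ #x = ℵ_ 2}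

/-- `ω₂`, as a set of ordinals. -/
abbrev K : Type 1 := Iio (ω_ 2 : Ordinal.{0})

/-- fineness of an ideal on `[ω₃]^{ω₂}` -/
def Fine (J : IdealOn Z) : Prop := ∀ α < (ω_ 3 : Ordinal.{0}), {x : Z | α ∉ x.1} ∈ J.sets

/-- normality of an ideal on `[ω₃]^{ω₂}`: closure under diagonal unions indexed by `ω₃` -/
def NormalZ (J : IdealOn Z) : Prop :=
  ∀ F : Ordinal.{0} → Set Z, (∀ α < (ω_ 3 : Ordinal.{0}), F α ∈ J.sets) →
    {x : Z | ∃ α ∈ x.1, x ∈ F α} ∈ J.sets

/-- normality of an ideal on `ω₂` -/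
def NormalK (I : IdealOn K) : Prop :=
  ∀ F : K → Set K, (∀ α, F α ∈ I.sets) → {δ : K | ∃ α < δ, δ ∈ F α} ∈ I.sets

/-- the ideal contains the bounded subsets of `ω₂` -/
def HasBounded (I : IdealOn K) : Prop :=
  ∀ Y : Set K, ∀ β : K, (∀ δ ∈ Y, δ ≤ β) → Y ∈ I.sets

/-- Strategic closure of length `o`: in the game in which the players Nonempty and Empty build a
descending sequence, Nonempty playing first at each stage `ξ` (limit stages included), Nonempty
has a strategy `σ` which never gets stuck before stage `o`. Here `f η` is the move of Empty at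
stage `η`, an extension of the preceding move `σ η (f ↾ η)` of Nonempty. -/
def StratClosed (o : Ordinal.{w}) (R : Type v) [Preorder R] : Prop :=
  ∃ σ : (ξ : Ordinal.{w}) → (Iio ξ → R) → R, ∀ ξ < o, ∀ f : Iio ξ → R,
    (∀ η : Iio ξ, f η ≤ σ η.1 (fun ζ => f ⟨ζ.1, lt_trans (mem_Iio.1 ζ.2) (mem_Iio.1 η.2)⟩)) → ∀ η, σ ξ f ≤ f η

/-- A reduction of the quotient forcing of `J`, modulo the poset `R`, to a set `A` of colours with a
compatibility relation `comp`. `ψ : R → P(X)/J` is order preserving, and `col r T a` says that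
`r` has given the colour `a` to the set `T`. Every `r` has an extension which either makes `T`
null or gives a colour to `T`, and if `r` has given compatible colours to `T` and `T'` then
`ψ r ∩ T ∩ T'` is positive. -/
structure Reduction {X : Type u} (J : IdealOn X) {A : Type v} {R : Type w} [Preorder R]
    (comp : A → A → Prop) (ψ : R → Pos J) (col : R → Set X → A → Prop) : Prop where
  mono : ∀ r r', r ≤ r' → ψ r ≤ ψ r'
  col_mono : ∀ r r' T a, r' ≤ r → col r T a → col r' T a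
  decide : ∀ r T, ∃ r' ≤ r, (ψ r').1 ∩ T ∈ J.sets ∨ ∃ a, col r' T a
  amalg : ∀ r T T' a a', col r T a → col r T' a' → comp a a' → (ψ r).1 ∩ (T ∩ T') ∉ J.sets

/-- The chain condition for a compatibility relation: `comp` is reflexive and every set of
pairwise incompatible elements has fewer than `c` elements. -/
def RelCC (c : Cardinal.{u}) {A : Type u} (comp : A → A → Prop) : Prop :=
  (∀ a, comp a a) ∧
    ∀ S : Set A, (∀ a ∈ S, ∀ b ∈ S, a ≠ b → ¬ comp a b) → #S < c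

/-- An `A`-name for a poset, given by the set `R` of all names for its conditions:
`le a r s` means that `a` forces `r ≤ s`, and `top` is the name of a largest condition. The last
two clauses are the usual facts that a statement which is forced densely below `a` is forced by
`a`, and that names can be mixed along antichains. -/
structure NamePoset (A : Type v) [Preorder A] (R : Type w) where
  le : A → R → R → Prop
  top : R
  le_top : ∀ a r, le a r top
  refl : ∀ a r, le a r r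
  trans : ∀ a r s t, le a r s → le a s t → le a r t
  mono : ∀ a b r s, b ≤ a → le a r s → le b r s
  dense : ∀ a r s, (∀ b ≤ a, ∃ c ≤ b, le c r s) → le a r s
  mix : ∀ W : Set A, IsAnti W → ∀ g : A → R, ∃ r, ∀ w ∈ W, le w r (g w) ∧ le w (g w) r

/-- The names of the poset, ordered by `r ≤ s` iff it is forced (by every condition of `A`)
that `r ≤ s`. -/
def NamePoset.Names {A : Type v} [Preorder A] {R : Type w} (_ : NamePoset A R) : Type w := R

instance {A : Type v} [Preorder A] {R : Type w} (N : NamePoset A R) : Preorder N.Names where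
  le r s := ∀ a, N.le a r s
  le_refl r := fun a => N.refl a r
  le_trans r s t h₁ h₂ := fun a => N.trans a r s t (h₁ a) (h₂ a)

/-- The two-step iteration `A * N`: pairs `(a, r)` of a condition and a name, ordered by
`(a, r) ≤ (b, s)` iff `a ≤ b` and `a` forces `r ≤ s`. -/
def NamePoset.Iter {A : Type v} [Preorder A] {R : Type w} (_ : NamePoset A R) : Type (max v w) :=
  A × R

instance {A : Type v} [Preorder A] {R : Type w} (N : NamePoset A R) : Preorder N.Iter where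
  le p q := p.1 ≤ q.1 ∧ N.le p.1 p.2 q.2
  le_refl p := ⟨le_rfl, N.refl _ _⟩
  le_trans p q r h₁ h₂ := ⟨h₁.1.trans h₂.1, N.trans _ _ _ _ h₁.2 (N.mono _ _ _ _ h₁.1 h₂.2)⟩

/-- the pair `(a, c)` as a condition of the iteration `A * N` -/
def NamePoset.pair {A : Type v} [Preorder A] {C : Type w} (N : NamePoset A C) (a : A) (c : C) :
    N.Iter := (a, c)

/-- `φ` is a dense embedding of the two-step iteration `B * M` into (the part below some condition
of) `P(X)/J`: it preserves order and incompatibility, and its range is dense below every condition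
which it meets. -/
structure DenseEmb {X : Type u} (J : IdealOn X) {B : Type v} {L : Type w} [Preorder B]
    (M : NamePoset B L) (φ : M.Iter → Pos J) : Prop where
  mono : ∀ p q, p ≤ q → φ p ≤ φ q
  incompat : ∀ p q, Compat (φ p) (φ q) → Compat p q
  dense : ∀ s : Pos J, (∃ p, Compat s (φ p)) → ∃ q, φ q ≤ s

/-- `C` forces that the poset named by `N` is `ω₂`-linked: `lk c a i` means that `c` forces the
name `a` to belong to the `i`-th piece (`i < ω₂`), and two names in the same piece are forced to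
be compatible. -/
structure LinkedName {C : Type v} [Preorder C] {R : Type w} (N : NamePoset C R)
    (lk : C → R → K → Prop) : Prop where
  mono : ∀ c c' a i, c' ≤ c → lk c a i → lk c' a i
  decide : ∀ c a, ∃ c' ≤ c, ∃ i, lk c' a i
  linked : ∀ c a a' i, lk c a i → lk c a' i → ∃ t, N.le c t a ∧ N.le c t a'

/-- There is an ideal on `ω₂` which is normal, `ω₂`-complete, contains all bounded sets and is
`ω₃`-saturated and (hence) `ω₃`-presaturated. -/
def HasSaturated : Prop :=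
  ∃ I : IdealOn K, NormalK I ∧ Complete (ℵ_ 2) I ∧ HasBounded I ∧ CC (ℵ_ 3) (Pos I) ∧
    Presaturated (ℵ_ 3) (Pos I)

theorem card_K : #K = ℵ_ 2 := by
  have := Cardinal.mk_Iio_ordinal (ω_ 2 : Ordinal.{0})
  rw [this, card_omega]
  simp

theorem aleph23 : (ℵ_ 2 : Cardinal.{u}) < ℵ_ 3 := by
  apply aleph_lt_aleph.2
  norm_num

theorem compat_iff {X : Type u} {J : IdealOn X} (p q : Pos J) :
    Compat p q ↔ p.1 ∩ q.1 ∉ J.sets := by
  constructor
  · rintro ⟨r, h₁, h₂⟩ h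
    apply r.2
    refine J.mono' (t := ((r.1 \ p.1) ∪ (r.1 \ q.1)) ∪ (p.1 ∩ q.1)) ?_
      (J.union' (J.union' h₁ h₂) h)
    intro x hx
    by_cases h1 : x ∈ p.1
    · by_cases h2 : x ∈ q.1
      · exact Or.inr ⟨h1, h2⟩
      · exact Or.inl (Or.inr ⟨hx, h2⟩)
    · exact Or.inl (Or.inl ⟨hx, h1⟩)
  · intro h
    refine ⟨⟨p.1 ∩ q.1, h⟩, ?_, ?_⟩
    · show (p.1 ∩ q.1) \ p.1 ∈ J.sets
      have : (p.1 ∩ q.1) \ p.1 = ∅ := by ext x; simp; tauto
      rw [this]; exact J.empty'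
    · show (p.1 ∩ q.1) \ q.1 ∈ J.sets
      have : (p.1 ∩ q.1) \ q.1 = ∅ := by ext x; simp
      rw [this]; exact J.empty'

section good

variable (J : IdealOn Z) (hf : Fine J) (hn : NormalZ J) (hc : Complete (ℵ_ 2) J)
  (hp : Presaturated (ℵ_ 3) (Pos J))

include hf hc in
theorem seg_sub (α : Ordinal.{0}) (hα : α < ω_ 2) : {x : Z | ¬ Iio α ⊆ x.1} ∈ J.sets := by
  have hα3 : α < ω_ 3 := lt_trans hα (omega_lt_omega.2 (by norm_num))
  have key : {x : Z | ¬ Iio α ⊆ x.1} ⊆ ⋃₀ ((fun β : Ordinal.{0} => {x : Z | β ∉ x.1}) '' Iio α) := by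
    intro x hx
    simp only [mem_ofPred_eq, not_subset] at hx
    obtain ⟨β, hβ, hβx⟩ := hx
    exact ⟨_, ⟨β, hβ, rfl⟩, hβx⟩
  refine J.mono' key (hc _ ?_ ?_)
  · rintro _ ⟨β, hβ, rfl⟩
    exact hf β (lt_trans hβ hα3)
  · refine lt_of_le_of_lt Cardinal.mk_image_le ?_
    rw [Cardinal.mk_Iio_ordinal]
    have h1 : α.card < ℵ_ 2 := lt_omega_iff_card_lt.1 hα
    have h2 := Cardinal.lift_lt.{0,1}.2 h1
    simpa using h2

include hf hn hp in
theorem not_all : {x : Z | Iio (ω_ 2) ⊆ x.1} ∈ J.sets := by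
  by_contra hpos
  have hg : ∀ x : Z, Nonempty (K ≃ x.1) := by
    intro x
    apply Cardinal.eq.1
    rw [card_K, x.2.2]
  obtain ⟨g⟩ : Nonempty (∀ x : Z, K ≃ x.1) := ⟨fun x => (hg x).some⟩
  let w : K → Ordinal.{0} → Set Z := fun ξ α => {x | (g x ξ : Ordinal.{0}) = α}
  let W : K → Set (Pos J) := fun ξ => {p | ∃ α, p.1 = w ξ α}
  have hmax : ∀ ξ, IsMaxAnti (W ξ) := by
    intro ξ
    refine ⟨?_, ?_⟩
    · rintro p ⟨α, hα⟩ q ⟨β, hβ⟩ hpq hcomp
      rw [compat_iff, hα, hβ] at hcomp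
      apply hcomp
      have : α ≠ β := by
        rintro rfl
        exact hpq (Subtype.ext (hα.trans hβ.symm))
      have h0 : w ξ α ∩ w ξ β = ∅ := by
        ext x
        simp only [w, mem_inter_iff, mem_ofPred_eq, mem_empty_iff_false, iff_false, not_and]
        intro h1 h2
        exact this (h1.symm.trans h2)
      rw [h0]
      exact J.empty'
    · intro p
      by_contra hno
      push Not at hno
      have h1 : ∀ α, p.1 ∩ w ξ α ∈ J.sets := by
        intro α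
        by_contra h
        have hw : w ξ α ∉ J.sets := fun hw => h (J.mono' inter_subset_right hw)
        exact hno ⟨w ξ α, hw⟩ ⟨α, rfl⟩ ((compat_iff _ _).2 h)
      have h2 := hn (fun α => p.1 ∩ w ξ α) (fun α _ => h1 α)
      apply p.2
      refine J.mono' ?_ h2
      intro x hx
      exact ⟨(g x ξ : Ordinal.{0}), (g x ξ).2, hx, rfl⟩
  have hF : #(range W) < ℵ_ 3 := by
    refine lt_of_le_of_lt Cardinal.mk_range_le ?_
    rw [card_K]
    exact aleph23
  obtain ⟨q, hq, hqW⟩ := hp ⟨_, hpos⟩ (range W) hF (by rintro _ ⟨ξ, rfl⟩; exact hmax ξ)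
  let E : K → Set Ordinal.{0} := fun ξ => {α | w ξ α ∩ q.1 ∉ J.sets}
  have hE : ∀ ξ, #(E ξ) ≤ ℵ_ 2 := by
    intro ξ
    have h1 := hqW (W ξ) ⟨ξ, rfl⟩
    have h2 : #(E ξ) ≤ #{w : Pos J // w ∈ W ξ ∧ Compat q w} := by
      have hwp : ∀ α : E ξ, w ξ α.1 ∉ J.sets := fun α hw => α.2 (J.mono' inter_subset_left hw)
      refine Cardinal.mk_le_of_injective
        (f := fun α : E ξ => (⟨⟨w ξ α.1, hwp α⟩, ⟨α.1, rfl⟩, ?_⟩ :
          {w : Pos J // w ∈ W ξ ∧ Compat q w})) ?_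
      · refine (compat_iff _ _).2 ?_
        show q.1 ∩ w ξ α.1 ∉ J.sets
        rw [inter_comm]
        exact α.2
      · intro α β hαβ
        have h3 : w ξ α.1 = w ξ β.1 := congrArg (fun z => z.1.1) hαβ
        have h4 : (w ξ α.1).Nonempty := by
          rw [nonempty_iff_ne_empty]
          intro h0
          exact hwp α (h0 ▸ J.empty')
        obtain ⟨x, hx⟩ := h4
        have hx' : x ∈ w ξ β.1 := h3 ▸ hx
        apply Subtype.ext
        exact (show (g x ξ : Ordinal.{0}) = α.1 from hx).symm.trans hx'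
    have h3 : #(E ξ) < ℵ_ 3 := lt_of_le_of_lt h2 h1
    have h4 : (ℵ_ 3 : Cardinal.{1}) = Order.succ (ℵ_ 2) := by
      rw [succ_aleph]
      norm_num
    rw [h4] at h3
    exact Order.lt_succ_iff.1 h3
  have hEU : #(⋃ ξ, E ξ : Set Ordinal.{0}) ≤ ℵ_ 2 := by
    refine (Cardinal.mk_iUnion_le _).trans ?_
    rw [card_K]
    refine (mul_le_mul' le_rfl (ciSup_le' hE)).trans ?_
    rw [Cardinal.mul_eq_self (aleph0_le_aleph 2)]
  have hβ : ∃ β < (ω_ 3 : Ordinal.{0}), β ∉ ⋃ ξ, E ξ := by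
    by_contra hno
    push Not at hno
    have h1 : #(Iio (ω_ 3 : Ordinal.{0})) ≤ #(⋃ ξ, E ξ : Set Ordinal.{0}) :=
      Cardinal.mk_le_mk_of_subset (fun β hβ => hno β hβ)
    rw [Cardinal.mk_Iio_ordinal, card_omega] at h1
    have h2 : (ℵ_ 3 : Cardinal.{1}) ≤ ℵ_ 2 := by
      simpa using h1.trans hEU
    exact absurd h2 (not_le.2 aleph23)
  obtain ⟨β, hβ3, hβE⟩ := hβ
  have hN : ∀ ξ : K, {x : Z | x ∈ q.1 ∧ (g x ξ : Ordinal.{0}) ∉ E ξ} ∈ J.sets := by
    intro ξ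
    have h1 := hn (fun α => {x | x ∈ q.1 ∧ x ∈ w ξ α ∧ α ∉ E ξ}) (by
      intro α _
      by_cases hα : α ∈ E ξ
      · refine J.mono' (t := ∅) ?_ J.empty'
        intro x hx
        exact absurd hα hx.2.2
      · have h2 : w ξ α ∩ q.1 ∈ J.sets := by
          by_contra h; exact hα h
        refine J.mono' ?_ h2
        intro x hx
        exact ⟨hx.2.1, hx.1⟩)
    refine J.mono' ?_ h1
    intro x hx
    exact ⟨(g x ξ : Ordinal.{0}), (g x ξ).2, hx.1, rfl, hx.2⟩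
  have hG := hn (fun ξ => {x : Z | ∃ h : ξ < ω_ 2, x ∈ q.1 ∧
    (g x ⟨ξ, h⟩ : Ordinal.{0}) ∉ E ⟨ξ, h⟩}) (by
      intro ξ _
      by_cases h : ξ < ω_ 2
      · refine J.mono' ?_ (hN ⟨ξ, h⟩)
        rintro x ⟨_, hx⟩
        exact hx
      · refine J.mono' (t := ∅) ?_ J.empty'
        rintro x ⟨h', _⟩
        exact absurd h' h)
  apply q.2
  have hqp : q.1 \ {x : Z | Iio (ω_ 2) ⊆ x.1} ∈ J.sets := hq
  refine J.mono' ?_ (J.union' (J.union' hqp (hf β hβ3)) hG)
  intro x hx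
  by_cases hxp : Iio (ω_ 2) ⊆ x.1
  · by_cases hxβ : β ∈ x.1
    · right
      obtain ⟨ξ, hξ⟩ := (g x).surjective ⟨β, hxβ⟩
      refine ⟨ξ.1, hxp ξ.2, ξ.2, hx, ?_⟩
      have h5 : (g x ξ : Ordinal.{0}) = β := by rw [hξ]
      show (g x ξ : Ordinal.{0}) ∉ E ξ
      rw [h5]
      intro h6
      exact hβE (mem_iUnion.2 ⟨ξ, h6⟩)
    · left; right; exact hxβ
  · left; left; exact ⟨hx, hxp⟩

/-- the set of `x` with `x ∩ ω₂ ∈ Y` -/
def ext (Y : Set K) : Set Z := {x | ∃ δ ∈ Y, x.1 ∩ Iio (ω_ 2) = Iio δ.1}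

include hf hn hc hp in
theorem good : (ext Set.univ)ᶜ ∈ J.sets := by
  have h1 := hn (fun α => {x : Z | α < ω_ 2 ∧ ¬ Iio α ⊆ x.1}) (by
    intro α _
    by_cases h : α < ω_ 2
    · refine J.mono' ?_ (seg_sub J hf hc α h)
      intro x hx
      exact hx.2
    · refine J.mono' (t := ∅) ?_ J.empty'
      intro x hx
      exact absurd hx.1 h)
  refine J.mono' ?_ (J.union' h1 (not_all J hf hn hp))
  intro x hx
  by_contra hno
  apply hx
  simp only [mem_union, mem_ofPred_eq, not_or, not_exists, not_and, not_not] at hno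
  obtain ⟨h2, h3⟩ := hno
  rw [not_subset] at h3
  have hne : {β : Ordinal.{0} | β ∉ x.1}.Nonempty := by
    obtain ⟨a, _, ha⟩ := h3
    exact ⟨a, ha⟩
  set δ := sInf {β : Ordinal.{0} | β ∉ x.1} with hδ
  have hδx : δ ∉ x.1 := csInf_mem hne
  have hlt : ∀ β < δ, β ∈ x.1 := by
    intro β hβ
    by_contra h
    exact absurd (csInf_le' (show β ∈ {β : Ordinal.{0} | β ∉ x.1} from h)) (not_le.2 hβ)
  have hδ2 : δ < ω_ 2 := by
    obtain ⟨a, ha, hax⟩ := h3
    exact lt_of_le_of_lt (csInf_le' hax) ha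
  refine ⟨⟨δ, hδ2⟩, Set.mem_univ _, ?_⟩
  ext β
  simp only [mem_inter_iff, mem_Iio]
  constructor
  · rintro ⟨hβx, hβ2⟩
    by_contra hle
    rw [not_lt] at hle
    rcases lt_or_eq_of_le hle with hlt' | heq
    · exact hδx (h2 β hβx hβ2 hlt')
    · exact hδx (heq ▸ hβx)
  · intro hβ
    exact ⟨hlt β hβ, lt_trans hβ hδ2⟩

theorem ext_inter (Y Y' : Set K) : ext Y ∩ ext Y' = ext (Y ∩ Y') := by
  apply Set.ext
  intro x
  constructor
  · rintro ⟨⟨δ, hδ, h1⟩, ⟨δ', hδ', h2⟩⟩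
    have h3 : Iio δ.1 = Iio δ'.1 := h1.symm.trans h2
    have h4 : δ = δ' := Subtype.ext (Iio_injective h3)
    exact ⟨δ, ⟨hδ, h4 ▸ hδ'⟩, h1⟩
  · rintro ⟨δ, ⟨hδ, hδ'⟩, h1⟩
    exact ⟨⟨δ, hδ, h1⟩, ⟨δ, hδ', h1⟩⟩

end good

theorem presat_of_cc {c : Cardinal.{u}} {P : Type u} [Preorder P] (h : CC c P) :
    Presaturated c P := by
  intro p F _ hF
  refine ⟨p, le_rfl, fun W hW => ?_⟩
  refine lt_of_le_of_lt ?_ (h W (hF W hW).1)
  refine Cardinal.mk_le_of_injective (f := fun z : {w : P // w ∈ W ∧ Compat p w} =>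
    (⟨z.1, z.2.1⟩ : W)) ?_
  intro z z' hzz'
  exact Subtype.ext (congrArg (fun y : W => y.1) hzz')

section main

variable {A : Type v} {R : Type w} [Preorder R] (J : IdealOn Z)
  (comp : A → A → Prop) (ψ : R → Pos J) (col : R → Set Z → A → Prop)
  (hφ : Reduction J comp ψ col)

/-- the decision function -/
noncomputable def dec (r : R) (T : Set Z) : R := (hφ.decide r T).choose

theorem dec_le (r : R) (T : Set Z) : dec J comp ψ col hφ r T ≤ r := (hφ.decide r T).choose_spec.1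

theorem dec_spec (r : R) (T : Set Z) :
    (ψ (dec J comp ψ col hφ r T)).1 ∩ T ∈ J.sets ∨ ∃ a, col (dec J comp ψ col hφ r T) T a :=
  (hφ.decide r T).choose_spec.2

/-- the descending sequence -/
noncomputable def seq (σ : (ξ : Ordinal.{1}) → (Iio ξ → R) → R) (T : Ordinal.{1} → Set Z) :
    Ordinal.{1} → R :=
  WellFounded.fix (lt_wf) (fun ξ ih => dec J comp ψ col hφ (σ ξ (fun η => ih η.1 η.2)) (T ξ))

theorem seq_eq (σ : (ξ : Ordinal.{1}) → (Iio ξ → R) → R) (T : Ordinal.{1} → Set Z)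
    (ξ : Ordinal.{1}) :
    seq J comp ψ col hφ σ T ξ =
      dec J comp ψ col hφ (σ ξ (fun η => seq J comp ψ col hφ σ T η.1)) (T ξ) := by
  unfold seq
  rw [WellFounded.fix_eq]

theorem seq_anti (μ : Ordinal.{1}) (σ : (ξ : Ordinal.{1}) → (Iio ξ → R) → R)
    (hσ : ∀ ξ < μ, ∀ f : Iio ξ → R,
      (∀ η : Iio ξ, f η ≤ σ η.1 (fun ζ => f ⟨ζ.1, lt_trans (mem_Iio.1 ζ.2) (mem_Iio.1 η.2)⟩)) →
      ∀ η, σ ξ f ≤ f η)
    (T : Ordinal.{1} → Set Z) (ξ : Ordinal.{1}) (hξ : ξ < μ) (η : Ordinal.{1}) (hη : η ≤ ξ) :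
    seq J comp ψ col hφ σ T ξ ≤ seq J comp ψ col hφ σ T η := by
  rcases lt_or_eq_of_le hη with h | h
  · have h1 : seq J comp ψ col hφ σ T ξ ≤ σ ξ (fun η => seq J comp ψ col hφ σ T η.1) := by
      rw [seq_eq]
      exact dec_le _ _ _ _ _ _ _
    have h2 := hσ ξ hξ (fun η => seq J comp ψ col hφ σ T η.1) (by
      intro η
      show seq J comp ψ col hφ σ T η.1 ≤ _
      rw [seq_eq]
      exact dec_le _ _ _ _ _ _ _) ⟨η, h⟩
    exact h1.trans h2
  · rw [h]

theorem exists_idx : ∃ idx : Set K → Ordinal.{1}, Function.Injective idx ∧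
    ∀ Y, idx Y < ((2 : Cardinal.{1}) ^ (ℵ_ 2 : Cardinal.{1})).ord := by
  obtain ⟨r, wo, hr⟩ := Cardinal.exists_ord_eq (Set K)
  refine ⟨fun Y => typein r Y, typein_injective r, ?_⟩
  intro Y
  have h1 := typein_lt_type r Y
  rw [← hr, Cardinal.mk_set, card_K] at h1
  exact h1

theorem ext_mono {Y Y' : Set K} (h : Y ⊆ Y') : ext Y ⊆ ext Y' := by
  rintro x ⟨δ, hδ, h1⟩
  exact ⟨δ, h hδ, h1⟩

theorem construct (hf : Fine J) (hn : NormalZ J) (hc : Complete (ℵ_ 2) J)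
    (hp : Presaturated (ℵ_ 3) (Pos J)) (hA : RelCC (ℵ_ 3) comp)
    (hR : StratClosed ((2 : Cardinal.{1}) ^ (ℵ_ 2 : Cardinal.{1})).ord R)
    (hφ : Reduction J comp ψ col) :
    ∃ I : IdealOn K, NormalK I ∧ Complete (ℵ_ 2) I ∧ HasBounded I ∧ CC (ℵ_ 3) (Pos I) := by
  obtain ⟨σ, hσ⟩ := hR
  obtain ⟨idx, hinj, hidx⟩ := exists_idx
  set μ := ((2 : Cardinal.{1}) ^ (ℵ_ 2 : Cardinal.{1})).ord with hμ
  let T : Ordinal.{1} → Set Z := fun ξ => {x | ∃ Y, idx Y = ξ ∧ x ∈ ext Y}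
  have hT : ∀ Y, T (idx Y) = ext Y := by
    intro Y
    apply Set.ext
    intro x
    constructor
    · rintro ⟨Y', h1, h2⟩
      rw [← hinj h1]
      exact h2
    · intro h
      exact ⟨Y, rfl, h⟩
  set s := seq J comp ψ col hφ σ T with hs
  have hsanti : ∀ ξ < μ, ∀ η ≤ ξ, s ξ ≤ s η :=
    fun ξ hξ η hη => seq_anti J comp ψ col hφ μ σ hσ T ξ hξ η hη
  have hle : ∀ ξ < μ, ∀ η ≤ ξ, (ψ (s ξ)).1 \ (ψ (s η)).1 ∈ J.sets :=
    fun ξ hξ η hη => hφ.mono _ _ (hsanti ξ hξ η hη)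
  have hup : ∀ ξ < μ, ∀ η ≤ ξ, ∀ (V : Set Z), (ψ (s η)).1 ∩ V ∈ J.sets →
      (ψ (s ξ)).1 ∩ V ∈ J.sets := by
    intro ξ hξ η hη V hV
    refine J.mono' ?_ (J.union' (hle ξ hξ η hη) hV)
    intro x hx
    by_cases h : x ∈ (ψ (s η)).1
    · exact Or.inr ⟨h, hx.2⟩
    · exact Or.inl ⟨hx.1, h⟩
  have hcof : (ℵ_ 2 : Cardinal.{1}) < μ.cof := by
    exact Cardinal.lt_cof_ord_power (aleph0_le_aleph 2) (by norm_num)
  have hμ0 : 0 < μ := by
    have := hidx ∅
    exact lt_of_le_of_lt zero_le this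
  have hsup : ∀ {ι : Type 1} (f : ι → Ordinal.{1}), #ι ≤ ℵ_ 2 → (∀ i, f i < μ) →
      ∃ ξ < μ, ∀ i, f i ≤ ξ := by
    intro ι f hι hf'
    refine ⟨iSup f, Ordinal.iSup_lt_of_lt_cof (lt_of_le_of_lt hι hcof) hf', fun i => ?_⟩
    exact Ordinal.le_iSup f i
  let I : IdealOn K :=
    { sets := {Y | ∃ ξ < μ, (ψ (s ξ)).1 ∩ ext Y ∈ J.sets}
      mono' := by
        rintro Y Y' hYY' ⟨ξ, hξ, h⟩
        exact ⟨ξ, hξ, J.mono' (inter_subset_inter_right _ (ext_mono hYY')) h⟩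
      union' := by
        rintro Y Y' ⟨ξ, hξ, h⟩ ⟨ξ', hξ', h'⟩
        refine ⟨max ξ ξ', max_lt hξ hξ', ?_⟩
        refine J.mono' ?_ (J.union' (hup _ (max_lt hξ hξ') _ (le_max_left _ _) _ h)
          (hup _ (max_lt hξ hξ') _ (le_max_right _ _) _ h'))
        rintro x ⟨hx, δ, hδ | hδ, h1⟩
        · exact Or.inl ⟨hx, δ, hδ, h1⟩
        · exact Or.inr ⟨hx, δ, hδ, h1⟩
      empty' := by
        refine ⟨0, hμ0, J.mono' (t := ∅) ?_ J.empty'⟩
        rintro x ⟨_, δ, hδ, _⟩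
        exact hδ
      proper' := by
        rintro ⟨ξ, hξ, h⟩
        apply (ψ (s ξ)).2
        refine J.mono' ?_ (J.union' h (good J hf hn hc hp))
        intro x hx
        by_cases h1 : x ∈ ext Set.univ
        · exact Or.inl ⟨hx, h1⟩
        · exact Or.inr h1 }
  refine ⟨I, ?_, ?_, ?_, ?_⟩
  · -- normality
    intro F hF
    choose ξ hξ h using hF
    obtain ⟨ζ, hζ, hζ'⟩ := hsup ξ (le_of_eq card_K) hξ
    refine ⟨ζ, hζ, ?_⟩
    have h1 := hn (fun α => {x | ∃ hα : α < ω_ 2, x ∈ (ψ (s ζ)).1 ∩ ext (F ⟨α, hα⟩)}) (by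
      intro α _
      by_cases hα : α < ω_ 2
      · refine J.mono' ?_ (hup ζ hζ _ (hζ' ⟨α, hα⟩) _ (h ⟨α, hα⟩))
        rintro x ⟨_, hx⟩
        exact hx
      · refine J.mono' (t := ∅) ?_ J.empty'
        rintro x ⟨h', _⟩
        exact absurd h' hα)
    refine J.mono' ?_ h1
    rintro x ⟨hx, δ, ⟨α, hαδ, hδα⟩, hxδ⟩
    have h2 : α.1 ∈ x.1 ∩ Iio (ω_ 2) := by
      rw [hxδ]; exact hαδ
    exact ⟨α.1, h2.1, h2.2, hx, δ, hδα, hxδ⟩
  · -- completeness
    intro S hS hcard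
    have hS' : ∀ Y : S, ∃ ξ < μ, (ψ (s ξ)).1 ∩ ext Y.1 ∈ J.sets := fun Y => hS Y.2
    choose ξ hξ h using hS'
    obtain ⟨ζ, hζ, hζ'⟩ := hsup ξ hcard.le hξ
    refine ⟨ζ, hζ, ?_⟩
    have h1 := hc ((fun Y : Set K => (ψ (s ζ)).1 ∩ ext Y) '' S) (by
      rintro _ ⟨Y, hY, rfl⟩
      exact hup ζ hζ _ (hζ' ⟨Y, hY⟩) _ (h ⟨Y, hY⟩)) (lt_of_le_of_lt Cardinal.mk_image_le hcard)
    refine J.mono' ?_ h1
    rintro x ⟨hx, δ, ⟨Y, hY, hδY⟩, hxδ⟩
    exact ⟨_, ⟨Y, hY, rfl⟩, hx, δ, hδY, hxδ⟩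
  · -- bounded sets
    intro Y β hβ
    refine ⟨0, hμ0, ?_⟩
    have h3 : β.1 < ω_ 3 := lt_trans β.2 (omega_lt_omega.2 (by norm_num))
    refine J.mono' ?_ (hf β.1 h3)
    rintro x ⟨_, δ, hδ, hxδ⟩ hβx
    have h2 : β.1 ∈ Iio δ.1 := by
      rw [← hxδ]; exact ⟨hβx, β.2⟩
    exact absurd (hβ δ hδ) (not_le.2 h2)
  · -- chain condition
    intro W hW
    have hch : ∀ p : W, ∃ a : A, col (s (idx p.1.1)) (ext p.1.1) a := by
      intro p
      have h1 : ¬ ∃ ξ < μ, (ψ (s ξ)).1 ∩ ext p.1.1 ∈ J.sets := p.1.2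
      push Not at h1
      have ha := h1 (idx p.1.1) (hidx _)
      have h2 := dec_spec J comp ψ col hφ
        (σ (idx p.1.1) (fun η => seq J comp ψ col hφ σ T η.1)) (T (idx p.1.1))
      rw [← seq_eq, hT] at h2
      rcases h2 with h2 | h2
      · exact absurd h2 ha
      · exact h2
    choose c hcc using hch
    have key : ∀ p q : W, p ≠ q → ¬ comp (c p) (c q) := by
      intro p q hpq hcomp
      have hne : p.1 ≠ q.1 := fun h => hpq (Subtype.ext h)
      have h1 := hW p.1 p.2 q.1 q.2 hne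
      rw [compat_iff, not_not] at h1
      obtain ⟨ξ₀, hξ₀, h2⟩ := h1
      set ξ := max ξ₀ (max (idx p.1.1) (idx q.1.1)) with hξdef
      have hξ : ξ < μ := max_lt hξ₀ (max_lt (hidx _) (hidx _))
      have e0 : (ψ (s ξ)).1 ∩ ext (p.1.1 ∩ q.1.1) ∈ J.sets :=
        hup ξ hξ ξ₀ (le_max_left _ _) _ h2
      have e1 := hφ.col_mono _ _ _ _
        (hsanti ξ hξ (idx p.1.1) ((le_max_left _ _).trans (le_max_right _ _))) (hcc p)
      have e2 := hφ.col_mono _ _ _ _
        (hsanti ξ hξ (idx q.1.1) ((le_max_right _ _).trans (le_max_right _ _))) (hcc q)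
      have e3 := hφ.amalg _ _ _ _ _ e1 e2 hcomp
      rw [ext_inter] at e3
      exact e3 e0
    have hcinj : Function.Injective c := by
      intro p q hpq
      by_contra h
      exact key p q h (hpq ▸ hA.1 _)
    have hanti : ∀ a ∈ range c, ∀ b ∈ range c, a ≠ b → ¬ comp a b := by
      rintro _ ⟨p, rfl⟩ _ ⟨q, rfl⟩ hne
      exact key p q (fun h => hne (h ▸ rfl))
    have h1 := hA.2 _ hanti
    have h2 : Cardinal.lift.{v} #W = Cardinal.lift.{1} #(range c) :=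
      (Cardinal.mk_range_eq_of_injective hcinj).symm ▸ rfl
    have h3 : Cardinal.lift.{v} #W < Cardinal.lift.{v} (ℵ_ 3 : Cardinal.{1}) := by
      rw [h2]
      have h4 := Cardinal.lift_lt.{v,1}.2 h1
      simpa using h4
    exact Cardinal.lift_lt.1 h3

end main

/-- every antichain is contained in a maximal one; here: for one given element -/
theorem exists_maxAnti {A : Type v} [Preorder A] (c : A) :
    ∃ W : Set A, c ∈ W ∧ IsAnti W ∧ ∀ a, ∃ w ∈ W, Compat a w := by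
  obtain ⟨W, hcW, hWmax⟩ := zorn_subset_nonempty {W : Set A | IsAnti W} (by
    intro C hC hchain _
    refine ⟨⋃₀ C, ?_, fun W hW => subset_sUnion_of_mem hW⟩
    rintro v ⟨V, hV, hvV⟩ w ⟨W, hW, hwW⟩ hne
    rcases hchain.total hV hW with hVW | hWV
    · exact hC hW v (hVW hvV) w hwW hne
    · exact hC hV v hvV w (hWV hwW) hne) {c} (by
    rintro v hv w hw hne
    exact absurd (hv.trans hw.symm) hne)
  refine ⟨W, hcW rfl, hWmax.prop, ?_⟩
  intro a
  by_contra hno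
  push Not at hno
  have hins : insert a W ∈ {W : Set A | IsAnti W} := by
    rintro v (rfl | hv) w (rfl | hw) hne
    · exact absurd rfl hne
    · exact hno w hw
    · rintro ⟨d, hd1, hd2⟩
      exact hno v hv ⟨d, hd2, hd1⟩
    · exact hWmax.prop v hv w hw hne
  have haW : a ∈ W := hWmax.le_of_ge hins (subset_insert a W) (mem_insert a W)
  exact hno a haW ⟨a, le_rfl, le_rfl⟩

/-- The three-step iteration `A * C * L` with `L` linked is reduced to `A × ω₂`, modulo the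
names for the conditions of `C`. -/
theorem Reduction.of_iter {X : Type u} {J : IdealOn X} {A : Type v} [Preorder A]
    [OrderTop A] {C : Type w} (N : NamePoset A C) {L : Type u} (M : NamePoset N.Iter L)
    (lk : N.Iter → L → K → Prop) (hl : LinkedName M lk) (φ : M.Iter → Pos J)
    (h : DenseEmb J M φ) :
    Reduction (A := A × K) (R := N.Names) J (fun p q => Compat p.1 q.1 ∧ p.2 = q.2)
      (fun c => φ (M.pair (N.pair ⊤ c) M.top))
      (fun c T p => ∃ l : L, (φ (M.pair (N.pair p.1 c) l)).1 \ T ∈ J.sets ∧ lk (N.pair p.1 c) l p.2) := by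
  constructor
  · intro c c' hc
    exact h.mono _ _ ⟨⟨le_rfl, hc ⊤⟩, M.refl _ _⟩
  · rintro c c' T ⟨a, i⟩ hc ⟨l, hT, hi⟩
    have h0 : N.pair a c' ≤ N.pair a c := ⟨le_rfl, hc a⟩
    have h1 : (φ (M.pair (N.pair a c') l)).1 \ (φ (M.pair (N.pair a c) l)).1 ∈ J.sets := h.mono _ _ ⟨h0, M.refl _ _⟩
    refine ⟨l, ?_, hl.mono _ _ _ _ h0 hi⟩
    refine J.mono' ?_ (J.union' h1 hT)
    intro x hx
    by_cases hx1 : x ∈ (φ (M.pair (N.pair a c) l)).1
    · exact Or.inr ⟨hx1, hx.2⟩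
    · exact Or.inl ⟨hx.1, hx1⟩
  · intro c T
    by_cases h1 : (φ (M.pair (N.pair ⊤ c) M.top)).1 ∩ T ∈ J.sets
    · exact ⟨c, le_rfl, Or.inl h1⟩
    · obtain ⟨q, hq⟩ := h.dense ⟨_, h1⟩ ⟨M.pair (N.pair ⊤ c) M.top, (compat_iff _ _).2 (by
        intro h2
        apply h1
        refine J.mono' ?_ h2
        intro x hx
        exact ⟨hx, hx.1⟩)⟩
      have hq' : (φ q).1 \ ((φ (M.pair (N.pair ⊤ c) M.top)).1 ∩ T) ∈ J.sets := hq
      have hcomp : Compat (φ q) (φ (M.pair (N.pair ⊤ c) M.top)) := by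
        refine ⟨φ q, le_rfl, ?_⟩
        show (φ q).1 \ (φ (M.pair (N.pair ⊤ c) M.top)).1 ∈ J.sets
        refine J.mono' ?_ hq'
        intro x hx
        exact ⟨hx.1, fun h3 => hx.2 h3.1⟩
      obtain ⟨⟨⟨d, t⟩, l⟩, hdq, hdc⟩ := h.incompat _ _ hcomp
      obtain ⟨⟨d', t'⟩, hd', i, hi⟩ := hl.decide (N.pair d t) l
      have htc : N.le d' t' c := by
        have e1 : N.le d t c := hdc.1.2
        exact N.trans _ _ _ _ hd'.2 (N.mono _ _ _ _ hd'.1 e1)
      obtain ⟨W, hcW, hWA, hWpre⟩ := exists_maxAnti d'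
      classical
      obtain ⟨g, hgc, hgn⟩ : ∃ g : A → C, g d' = t' ∧ ∀ w, w ≠ d' → g w = (c : C) :=
        ⟨Function.update (fun _ => (c : C)) d' t', Function.update_self _ _ _,
          fun w hw => Function.update_of_ne hw _ _⟩
      obtain ⟨r', hr'⟩ := N.mix W hWA g
      have hd't' : N.le d' r' t' := by
        have h5 := (hr' d' hcW).1
        rw [hgc] at h5
        exact h5
      have hlt : N.pair d' r' ≤ N.pair d' t' := ⟨le_rfl, hd't'⟩
      refine ⟨r', ?_, Or.inr ⟨(d', i), l, ?_, hl.mono _ _ _ _ hlt hi⟩⟩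
      · intro a
        apply N.dense
        intro b' _
        obtain ⟨w, hw, e, heb, hew⟩ := hWpre b'
        refine ⟨e, heb, ?_⟩
        have h5 := (hr' w hw).1
        by_cases hwc : w = d'
        · rw [hwc, hgc] at h5
          rw [hwc] at hew
          exact N.mono _ _ _ _ hew (N.trans _ _ _ _ h5 htc)
        · rw [hgn w hwc] at h5
          exact N.mono _ _ _ _ hew h5
      · have h6 : (φ (M.pair (N.pair d' r') l)).1 \ (φ q).1 ∈ J.sets := by
          refine h.mono _ _ ?_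
          have h7 : M.pair (N.pair d' r') l ≤ M.pair (N.pair d t) l := ⟨hlt.trans hd', M.refl _ _⟩
          exact h7.trans hdq
        refine J.mono' ?_ (J.union' h6 hq')
        intro x hx
        by_cases hx1 : x ∈ (φ q).1
        · exact Or.inr ⟨hx1, fun h7 => hx.2 h7.2⟩
        · exact Or.inl ⟨hx.1, hx1⟩
  · rintro c T T' ⟨a, i⟩ ⟨a', i'⟩ ⟨l, hT, hi⟩ ⟨l', hT', hi'⟩ ⟨⟨b, hba, hba'⟩, hii'⟩ hnull
    have hii'' : i = i' := hii'
    subst hii''
    have hb1 : N.pair b c ≤ N.pair a c := ⟨hba, N.refl _ _⟩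
    have hb2 : N.pair b c ≤ N.pair a' c := ⟨hba', N.refl _ _⟩
    have hb3 : N.pair b c ≤ N.pair ⊤ c := ⟨le_top, N.refl _ _⟩
    obtain ⟨t, htl, htl'⟩ := hl.linked _ _ _ _ (hl.mono _ _ _ _ hb1 hi) (hl.mono _ _ _ _ hb2 hi')
    have e1 : (φ (M.pair (N.pair b c) t)).1 \ (φ (M.pair (N.pair a c) l)).1 ∈ J.sets := h.mono _ _ ⟨hb1, htl⟩
    have e2 : (φ (M.pair (N.pair b c) t)).1 \ (φ (M.pair (N.pair a' c) l')).1 ∈ J.sets := h.mono _ _ ⟨hb2, htl'⟩
    have e3 : (φ (M.pair (N.pair b c) t)).1 \ (φ (M.pair (N.pair ⊤ c) M.top)).1 ∈ J.sets :=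
      h.mono _ _ ⟨hb3, M.le_top _ _⟩
    apply (φ (M.pair (N.pair b c) t)).2
    refine J.mono' ?_ (J.union' (J.union' e3 hnull) (J.union' (J.union' e1 hT)
      (J.union' e2 hT')))
    intro x hx
    by_cases h3 : x ∈ (φ (M.pair (N.pair ⊤ c) M.top)).1
    · by_cases h1 : x ∈ (φ (M.pair (N.pair a c) l)).1
      · by_cases h1' : x ∈ T
        · by_cases h2 : x ∈ (φ (M.pair (N.pair a' c) l')).1
          · by_cases h2' : x ∈ T'
            · exact Or.inl (Or.inr ⟨h3, h1', h2'⟩)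
            · exact Or.inr (Or.inr (Or.inr ⟨h2, h2'⟩))
          · exact Or.inr (Or.inr (Or.inl ⟨hx, h2⟩))
        · exact Or.inr (Or.inl (Or.inr ⟨h1, h1'⟩))
      · exact Or.inr (Or.inl (Or.inl ⟨hx, h1⟩))
    · exact Or.inl (Or.inl ⟨hx, h3⟩)

theorem relCC_prod {A : Type v} [Preorder A] (hA : CC (ℵ_ 3) A) :
    RelCC (ℵ_ 3) (fun p q : A × K => Compat p.1 q.1 ∧ p.2 = q.2) := by
  refine ⟨fun p => ⟨⟨p.1, le_rfl, le_rfl⟩, rfl⟩, ?_⟩
  intro S hS
  have h4 : (ℵ_ 3 : Cardinal.{max v 1}) = Order.succ (ℵ_ 2) := by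
    rw [succ_aleph]
    norm_num
  have h4' : (ℵ_ 3 : Cardinal.{v}) = Order.succ (ℵ_ 2) := by
    rw [succ_aleph]
    norm_num
  let F : K → Set A := fun i => {a | (a, i) ∈ S}
  have hF : ∀ i, #(F i) ≤ ℵ_ 2 := by
    intro i
    have h1 : #(F i) < ℵ_ 3 := by
      apply hA
      intro a ha b hb hne hcomp
      exact hS (a, i) ha (b, i) hb (fun h => hne (congrArg Prod.fst h)) ⟨hcomp, rfl⟩
    rw [h4'] at h1
    exact Order.lt_succ_iff.1 h1
  have h5 : #S ≤ #(Σ i : K, F i) := by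
    refine Cardinal.mk_le_of_injective (f := fun p : S => ⟨p.1.2, ⟨p.1.1, p.2⟩⟩) ?_
    intro p q hpq
    apply Subtype.ext
    have h6 : p.1.2 = q.1.2 := congrArg Sigma.fst hpq
    have h7 : p.1.1 = q.1.1 := by
      have := congrArg (fun z : (Σ i : K, F i) => (z.2.1 : A)) hpq
      exact this
    exact Prod.ext h7 h6
  have h8 : #(Σ i : K, F i) ≤ ℵ_ 2 := by
    rw [Cardinal.mk_sigma]
    refine (Cardinal.sum_le_lift_mk_mul_iSup_lift _).trans ?_
    rw [card_K]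
    have h9 : (⨆ i, Cardinal.lift.{1} #(F i)) ≤ ℵ_ 2 := by
      refine ciSup_le' (fun i => ?_)
      have h10 := Cardinal.lift_le.{1}.2 (hF i)
      simpa using h10
    refine (mul_le_mul' le_rfl h9).trans ?_
    simp
  rw [h4]
  exact Order.lt_succ_iff.2 (h5.trans h8)

/-- The result. Let `J` be a normal, fine, `ω₂`-complete, `ω₃`-presaturated ideal on
`[ω₃]^{ω₂}`. Suppose that `P(Z)/J` is, below some condition, forcing equivalent to a three-step
iteration `A * C * L` where `A` is `ω₃`-c.c., `C` is forced to be `2^{ω₂}`-strategically closed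
and `L` is forced to be `ω₂`-linked. Then there is an `ω₃`-saturated normal ideal on `ω₂`. -/
theorem result (J : IdealOn Z) (hf : Fine J) (hn : NormalZ J) (hc : Complete (ℵ_ 2) J)
    (hp : Presaturated (ℵ_ 3) (Pos J))
    (A : Type v) [Preorder A] [OrderTop A] (hA : CC (ℵ_ 3) A)
    (C : Type w) (N : NamePoset A C)
    (hC : StratClosed ((2 : Cardinal.{1}) ^ (ℵ_ 2 : Cardinal.{1})).ord N.Names)
    (L : Type 1) (M : NamePoset N.Iter L) (lk : N.Iter → L → K → Prop) (hL : LinkedName M lk)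
    (φ : M.Iter → Pos J) (hφ : DenseEmb J M φ) :
    HasSaturated := by
  obtain ⟨I, h1, h2, h3, h4⟩ := construct J _ _ _ hf hn hc hp (relCC_prod hA) hC
    (Reduction.of_iter N M lk hL φ hφ)
  exact ⟨I, h1, h2, h3, h4, presat_of_cc h4⟩

end Pool.Agent.Results.MP_a2f7de_lc.FactoredQuotients
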